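import Pool.Agent.Helper92.AM.Final

set_option autoImplicit false

/-!
# The learner for functions of few variables
-/

namespace Pool.Agent.Helper92.JU

open Finset
open Pool.Agent.NPC
open Pool.Agent.H637R3.UC
open Pool.Agent.Helper92.AM

/-- The coefficient of `S` is large in the sample. -/
def big (Q : ℕ) (s : List (List Bool × Bool)) (S : List ℕ) : Bool :=
  decide (s.length * s.length ≤ Q * sqd (agree s S) s.length)

/-- The detected coordinates. -/
def vars (W k Q n : ℕ) (s : List (List Bool × Bool)) : List ℕ :=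
  (List.range n).filter fun i => (subs W k (List.range n)).any fun S => decide (i ∈ S) && big Q s S

/-- The hypothesis: the detected coordinates and the positive examples. -/
def lrn (k t : ℕ) (s : List (List Bool × Bool)) : List ℕ × List (List Bool) :=
  (vars ((2 * t) ^ (k + 1)) (k + 1) (t * t) ((s.headD ([], false)).1.length) s,
    (s.filter fun z => z.2).map fun z => z.1)

/-- Value of the hypothesis: some positive example agrees with `x` on the detected coordinates. -/
def hv (H : List ℕ × List (List Bool)) (x : List Bool) : Bool :=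
  H.2.any fun y => H.1.all fun i => !(xor (x.getD i false) (y.getD i false))

section

variable {α : Type} [TEnc α]

theorem poly_big {Q : α → ℕ} {s : α → List (List Bool × Bool)} {S : α → List ℕ}
    (hQ : NPC.Poly Q) (hs : NPC.Poly s) (hS : NPC.Poly S) :
    NPC.Poly (fun a => big (Q a) (s a) (S a)) := by
  unfold big
  exact NPC.Poly.decide_le (NPC.Poly.mul (NPC.Poly.length hs) (NPC.Poly.length hs))
    (NPC.Poly.mul hQ (poly_sqd (poly_agree hs hS) (NPC.Poly.length hs)))

theorem poly_vars {W Q n : α → ℕ} (k : ℕ) {s : α → List (List Bool × Bool)}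
    (hW : UPoly W) (hQ : NPC.Poly Q) (hn : UPoly n) (hs : NPC.Poly s) :
    NPC.Poly (fun a => vars (W a) k (Q a) (n a) (s a)) := by
  unfold vars
  refine NPC.Poly.filter (p := fun a i => (subs (W a) k (List.range (n a))).any fun S =>
    decide (i ∈ S) && big (Q a) (s a) S) hn.range ?_
  have hsub : NPC.Poly (fun p : α × ℕ => subs (W p.1) k (List.range (n p.1))) :=
    poly_subs (hW.comp (NPC.Poly.fst NPC.Poly.id)) (NPC.Poly.const k)
      ((hn.comp (NPC.Poly.fst NPC.Poly.id)).range)
  refine NPC.Poly.any (p := fun (p : α × ℕ) (S : List ℕ) => decide (p.2 ∈ S) &&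
    big (Q p.1) (s p.1) S) hsub ?_
  refine NPC.Poly.and (NPC.Poly.decide_mem (NPC.Poly.snd (NPC.Poly.fst NPC.Poly.id))
    (NPC.Poly.snd NPC.Poly.id)) ?_
  exact poly_big (hQ.comp (NPC.Poly.fst (NPC.Poly.fst NPC.Poly.id)))
    (hs.comp (NPC.Poly.fst (NPC.Poly.fst NPC.Poly.id))) (NPC.Poly.snd NPC.Poly.id)

theorem poly_lrn (k : ℕ) : NPC.Poly (fun z : List Unit × List (List Bool × Bool) =>
    lrn k z.1.length z.2) := by
  have hz1 : NPC.Poly (fun z : List Unit × List (List Bool × Bool) => z.1) :=
    NPC.Poly.fst NPC.Poly.id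
  have hs : NPC.Poly (fun z : List Unit × List (List Bool × Bool) => z.2) :=
    NPC.Poly.snd NPC.Poly.id
  have ht : UPoly (fun z : List Unit × List (List Bool × Bool) => z.1.length) :=
    UPoly.length hz1
  have hW : UPoly (fun z : List Unit × List (List Bool × Bool) =>
      (2 * z.1.length) ^ (k + 1)) := by
    have h1 := UPoly.eval ht ((Polynomial.C 2 * Polynomial.X) ^ (k + 1))
    simpa using h1
  have hQ : NPC.Poly (fun z : List Unit × List (List Bool × Bool) =>
      z.1.length * z.1.length) := NPC.Poly.mul ht.toPoly ht.toPoly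
  have hhead : NPC.Poly (fun z : List Unit × List (List Bool × Bool) =>
      (z.2.headD ([], false)).1) :=
    NPC.Poly.fst ((NPC.Poly.getD (d := fun _ => (([], false) : List Bool × Bool)) hs
      (NPC.Poly.const 0) (NPC.Poly.const _)).congr fun z => by cases z.2 <;> rfl)
  have hn : UPoly (fun z : List Unit × List (List Bool × Bool) =>
      (z.2.headD ([], false)).1.length) := UPoly.length hhead
  unfold lrn
  refine NPC.Poly.pair (poly_vars (k + 1) hW hQ hn hs) ?_
  refine NPC.Poly.map (F := fun (_ : List Unit × List (List Bool × Bool))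
    (z : List Bool × Bool) => z.1) (NPC.Poly.filter
      (p := fun (_ : List Unit × List (List Bool × Bool)) (z : List Bool × Bool) => z.2) hs
      (NPC.Poly.snd (NPC.Poly.snd NPC.Poly.id))) (NPC.Poly.fst (NPC.Poly.snd NPC.Poly.id))

theorem poly_hv {H : α → List ℕ × List (List Bool)} {x : α → List Bool} (hH : NPC.Poly H)
    (hx : NPC.Poly x) : NPC.Poly (fun a => hv (H a) (x a)) := by
  unfold hv
  refine NPC.Poly.any (p := fun a (y : List Bool) => (H a).1.all fun i =>
    !(xor ((x a).getD i false) (y.getD i false))) (NPC.Poly.snd hH) ?_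
  refine NPC.Poly.all (p := fun (p : α × List Bool) (i : ℕ) =>
    !(xor ((x p.1).getD i false) (p.2.getD i false)))
    (NPC.Poly.fst (hH.comp (NPC.Poly.fst NPC.Poly.id))) ?_
  refine NPC.Poly.not (NPC.Poly.xor ?_ ?_)
  · exact NPC.Poly.getD (d := fun _ => false) (hx.comp (NPC.Poly.fst (NPC.Poly.fst NPC.Poly.id)))
      (NPC.Poly.snd NPC.Poly.id) (NPC.Poly.const false)
  · exact NPC.Poly.getD (d := fun _ => false) (NPC.Poly.snd (NPC.Poly.fst NPC.Poly.id))
      (NPC.Poly.snd NPC.Poly.id) (NPC.Poly.const false)

end

/-- The learner with the output as a bit string. -/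
def lrnBits (k : ℕ) (z : List Unit × List (List Bool × Bool)) : List Bool :=
  bits (lrn k z.1.length z.2)

/-- The value of the hypothesis with a given code. -/
def evlBits (z : List Bool × List Bool) : Bool :=
  match unbits (List ℕ × List (List Bool)) z.1 with
  | none => false
  | some H => hv H z.2

theorem evlBits_bits (H : List ℕ × List (List Bool)) (x : List Bool) :
    evlBits (bits H, x) = hv H x := by
  unfold evlBits
  simp only [unbits_bits]

theorem poly_lrnBits (k : ℕ) : NPC.Poly (lrnBits k) := by
  have h := poly_lrn k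
  have h1 : PC (bits : List Unit × List (List Bool × Bool) → List Bool)
      (fun x : List Bool => x) (lrnBits k) := by
    obtain ⟨c', p, h⟩ := h
    exact ⟨c', p, h⟩
  exact PC.comp (g := fun x : List Bool => x) PC.rawIn h1

theorem poly_evlBits : NPC.Poly evlBits := by
  have h := NPC.Poly.optCases (o := fun z : List Bool × List Bool =>
      unbits (List ℕ × List (List Bool)) z.1)
    (g := fun _ => false) (h := fun z H => hv H z.2)
    (poly_unbits.comp (NPC.Poly.fst NPC.Poly.id)) (NPC.Poly.const _)
    (poly_hv (NPC.Poly.snd NPC.Poly.id) (NPC.Poly.snd (NPC.Poly.fst NPC.Poly.id)))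
  refine h.congr fun z => ?_
  unfold evlBits
  cases unbits (List ℕ × List (List Bool)) z.1 <;> rfl

end Pool.Agent.Helper92.JU
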