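import Pool.Agent.Helper92.JU.Alg
import Pool.Agent.Helper92.MO.Final

set_option autoImplicit false

/-!
# The relevant coordinates
-/

namespace Pool.Agent.Helper92.JU

open Finset
open Pool.Agent.NPC
open Pool.Agent.H637R3.UC
open Pool.Agent.Helper92.AM
open Pool.Agent.Helper92.RK (Tm Sat vr Con)

variable {n : ℕ}

open Classical in
/-- The relevant coordinates. -/
noncomputable def rel (f : (Fin n → Bool) → Bool) : Finset (Fin n) :=
  univ.filter fun i => ∃ x, f x ≠ f (flip x i)

theorem not_rel {f : (Fin n → Bool) → Bool} {i : Fin n} (h : i ∉ rel f) (x : Fin n → Bool) :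
    f (flip x i) = f x := by
  by_contra hc
  exact h (by
    unfold rel
    rw [Finset.mem_filter]
    exact ⟨Finset.mem_univ _, x, fun e => hc e.symm⟩)

theorem rel_sub {f : (Fin n → Bool) → Bool} {J : Finset (Fin n)}
    (hJ : ∀ x y : Fin n → Bool, (∀ i ∈ J, x i = y i) → f x = f y) : rel f ⊆ J := by
  intro i hi
  unfold rel at hi
  rw [Finset.mem_filter] at hi
  obtain ⟨_, x, hx⟩ := hi
  by_contra hc
  refine hx (hJ _ _ fun j hj => ?_)
  rw [MO.flip_ne x (fun e : j = i => hc (e ▸ hj))]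

theorem dep_aux (f : (Fin n → Bool) → Bool) : ∀ D : Finset (Fin n), (∀ i ∈ D, i ∉ rel f) →
    ∀ x y : Fin n → Bool, (∀ i, i ∉ D → x i = y i) → f x = f y := by
  intro D
  induction D using Finset.induction_on with
  | empty =>
    intro _ x y h
    rw [show x = y from funext fun i => h i (Finset.notMem_empty _)]
  | insert a D ha ih =>
    intro hD x y h
    have hD' : ∀ i ∈ D, i ∉ rel f := fun i hi => hD i (Finset.mem_insert_of_mem hi)
    by_cases e : x a = y a
    · refine ih hD' x y fun i hi => ?_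
      by_cases e2 : i = a
      · rw [e2, e]
      · exact h i (by simp [e2, hi])
    · rw [← not_rel (hD a (Finset.mem_insert_self _ _)) x]
      refine ih hD' _ y fun i hi => ?_
      by_cases e2 : i = a
      · rw [e2, flip_self]
        revert e
        cases x a <;> cases y a <;> simp
      · rw [MO.flip_ne x e2]
        exact h i (by simp [e2, hi])

theorem dep (f : (Fin n → Bool) → Bool) (x y : Fin n → Bool) (h : ∀ i ∈ rel f, x i = y i) :
    f x = f y := by
  classical
  refine dep_aux f (univ.filter fun i => i ∉ rel f) (fun i hi => (Finset.mem_filter.1 hi).2) x y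
    fun i hi => h i ?_
  by_contra hc
  exact hi (Finset.mem_filter.2 ⟨Finset.mem_univ _, hc⟩)

open Classical in
/-- The number of points with given coordinates in `J`. -/
theorem card_agree (J : Finset (Fin n)) (y : Fin n → Bool) :
    ((univ.filter fun x : Fin n → Bool => ∀ i ∈ J, x i = y i).card : ℝ) * 2 ^ J.card = 2 ^ n := by
  have h1 := MO.card_sat (J.image fun i => (i, y i)) (by
    intro l hl l' hl' e
    rw [Finset.mem_image] at hl hl'
    obtain ⟨i, _, rfl⟩ := hl
    obtain ⟨j, _, rfl⟩ := hl'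
    simp only at e
    rw [e])
  rw [Finset.card_image_of_injective _ (fun i j h => (Prod.ext_iff.1 h).1)] at h1
  rw [← h1]
  congr 3
  ext x
  simp only [Finset.mem_filter, Finset.mem_univ, true_and]
  unfold Sat
  constructor
  · intro h l hl
    rw [Finset.mem_image] at hl
    obtain ⟨i, hi, rfl⟩ := hl
    exact h i hi
  · intro h i hi
    exact h (i, y i) (Finset.mem_image_of_mem _ hi)

theorem infl_rel {f : (Fin n → Bool) → Bool} {i : Fin n} (hi : i ∈ rel f) {r : ℕ}
    (hr : (rel f).card ≤ r) : (1 / 2 : ℝ) ^ r ≤ infl (sf f) i := by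
  classical
  rw [infl_sf, le_div_iff₀ (by positivity)]
  have hi' := hi
  unfold rel at hi'
  rw [Finset.mem_filter] at hi'
  obtain ⟨_, y, hy⟩ := hi'
  have h1 : ((univ.filter fun x : Fin n → Bool => ∀ j ∈ rel f, x j = y j).card : ℝ) ≤
      ∑ x : Fin n → Bool, if f x ≠ f (flip x i) then (1 : ℝ) else 0 := by
    rw [Finset.sum_ite, Finset.sum_const_zero, add_zero, Finset.sum_const, nsmul_eq_mul, mul_one]
    have h2 : (univ.filter fun x : Fin n → Bool => ∀ j ∈ rel f, x j = y j) ⊆
        univ.filter fun x : Fin n → Bool => f x ≠ f (flip x i) := by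
      intro x hx
      rw [Finset.mem_filter] at hx ⊢
      refine ⟨Finset.mem_univ _, ?_⟩
      rw [dep f x y hx.2, dep f (flip x i) (flip y i) (fun j hj => ?_)]
      · exact hy
      · by_cases e : j = i
        · rw [e, flip_self, flip_self, hx.2 i hi]
        · rw [MO.flip_ne x e, MO.flip_ne y e, hx.2 j hj]
    exact_mod_cast Finset.card_le_card h2
  refine le_trans ?_ h1
  have h3 := card_agree (rel f) y
  have h4 : (2 : ℝ) ^ (rel f).card ≤ 2 ^ r := pow_le_pow_right₀ (by norm_num) hr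
  have h5 : (0 : ℝ) ≤ ((univ.filter fun x : Fin n → Bool => ∀ j ∈ rel f, x j = y j).card : ℝ) :=
    Nat.cast_nonneg _
  calc (1 / 2 : ℝ) ^ r * 2 ^ n = (1 / 2 : ℝ) ^ r *
        (((univ.filter fun x : Fin n → Bool => ∀ j ∈ rel f, x j = y j).card : ℝ) *
          2 ^ (rel f).card) := by rw [h3]
    _ ≤ (1 / 2 : ℝ) ^ r *
        (((univ.filter fun x : Fin n → Bool => ∀ j ∈ rel f, x j = y j).card : ℝ) *
          2 ^ r) := by
        refine mul_le_mul_of_nonneg_left (mul_le_mul_of_nonneg_left h4 h5) (by positivity)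
    _ = ((1 / 2 : ℝ) * 2) ^ r *
        ((univ.filter fun x : Fin n → Bool => ∀ j ∈ rel f, x j = y j).card : ℝ) := by
        rw [mul_pow]
        ring
    _ = _ := by norm_num

theorem cf_irrel {f : (Fin n → Bool) → Bool} {i : Fin n} (hi : i ∉ rel f)
    {S : Finset (Fin n)} (hS : i ∈ S) : cf (sf f) S = 0 := by
  have h1 : infl (sf f) i = 0 := by
    rw [infl_sf, Finset.sum_eq_zero, zero_div]
    intro x _
    rw [if_neg]
    rw [not_not]
    exact (not_rel hi x).symm
  unfold infl at h1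
  rw [Finset.sum_eq_zero_iff_of_nonneg (fun T _ => by split_ifs <;> positivity)] at h1
  have h2 := h1 S (Finset.mem_univ _)
  rw [if_pos hS] at h2
  exact pow_eq_zero_iff (by norm_num) |>.1 h2

theorem sq_le_two_pow : ∀ X : ℕ, 4 ≤ X → X ^ 2 ≤ 2 ^ X := by
  intro X hX
  induction X, hX using Nat.le_induction with
  | base => norm_num
  | succ X hX ih =>
    rw [pow_succ 2 X]
    nlinarith

open Classical in
/-- A relevant coordinate is seen by a small set. -/
theorem seen {k r : ℕ} (F : Finset (Tm n)) (hF : ∀ T ∈ F, Con T)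
    (f : (Fin n → Bool) → Bool) (hf : ∀ x, f x = true ↔ ∃ T ∈ F, Sat T x) (i : Fin n) (σ : Bool)
    (hk : (F.filter fun T => (i, !σ) ∈ T).card ≤ k) (hi : i ∈ rel f) (hr : (rel f).card ≤ r) :
    ∃ S : Finset (Fin n), i ∈ S ∧ S.card ≤ k + 1 ∧
      (1 / 2 : ℝ) ^ ((k + 1) * (r + 8 * k + 16)) < |cf (sf f) S| := by
  by_contra hcon
  push Not at hcon
  obtain ⟨X, hX⟩ : ∃ X, X = r + 8 * k + 16 := ⟨_, rfl⟩
  rw [← hX] at hcon
  have hX1 : 16 ≤ X := by omega
  have h1 := MO.det (k := k) (L := 2 * (k + 1) * X)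
    (by
      have : 0 < 2 * (k + 1) * X := by positivity
      omega) F hF f hf i σ hk hcon
  have h2 := infl_rel hi hr
  set β : ℝ := (1 / 2 : ℝ) ^ ((k + 1) * X) with hβ
  have hβ0 : 0 < β := by positivity
  have a1 : (1 / 2 : ℝ) ^ (2 * (k + 1) * X) ≤ β := by
    refine pow_le_pow_of_le_one (by norm_num) (by norm_num) ?_
    nlinarith
  have a2 : (2 * ((2 * (k + 1) * X : ℕ) : ℝ)) ^ k ≤ (2 : ℝ) ^ (X * k) := by
    rw [pow_mul]
    refine pow_le_pow_left₀ (by positivity) ?_ k
    have b1 : 2 * (2 * (k + 1) * X) ≤ X ^ 2 := by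
      have : 4 * (k + 1) ≤ X := by omega
      nlinarith
    have b2 := b1.trans (sq_le_two_pow X (by omega))
    exact_mod_cast b2
  have a3 : (2 : ℝ) ^ (X * k) * β = (1 / 2) ^ X := by
    rw [hβ, show (k + 1) * X = X * k + X by ring, pow_add, ← mul_assoc, ← mul_pow]
    norm_num
  have a4 : (1 : ℝ) ≤ 2 ^ (X * k) := one_le_pow₀ (by norm_num)
  have a5 : (2 * ((2 * (k + 1) * X : ℕ) : ℝ)) ^ k * (2 * β + 8 * (1 / 2) ^ (2 * (k + 1) * X)) + β ≤
      11 * (1 / 2) ^ X := by
    calc _ ≤ (2 : ℝ) ^ (X * k) * (2 * β + 8 * β) + β := by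
          refine add_le_add (mul_le_mul a2 (by linarith) (by positivity) (by positivity)) le_rfl
      _ ≤ (2 : ℝ) ^ (X * k) * (2 * β + 8 * β) + 2 ^ (X * k) * β := by nlinarith
      _ = 11 * (2 ^ (X * k) * β) := by ring
      _ = _ := by rw [a3]
  have a6 : (1 / 2 : ℝ) ^ X ≤ (1 / 2) ^ r * (1 / 2) ^ 16 := by
    rw [← pow_add]
    exact pow_le_pow_of_le_one (by norm_num) (by norm_num) (by omega)
  have a7 : (0 : ℝ) < (1 / 2) ^ r := by positivity
  have a8 : 11 * (1 / 2 : ℝ) ^ X < (1 / 2) ^ r := by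
    calc 11 * (1 / 2 : ℝ) ^ X ≤ 11 * ((1 / 2) ^ r * (1 / 2) ^ 16) :=
          mul_le_mul_of_nonneg_left a6 (by norm_num)
      _ < (1 / 2) ^ r := by
          norm_num
          linarith
  linarith [h1.trans a5]

end Pool.Agent.Helper92.JU
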