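import Pool.Agent.Helper92.JU.Cor

set_option autoImplicit false

/-!
# Exact learning of formulas which depend on few coordinates
-/

namespace Pool.Agent.Helper92.JU

open Finset
open Pool.Agent.NPC
open Pool.Agent.H637R3.UC
open Pool.Agent.Helper92.AM
open Pool.Agent.Helper92.RK (Tm Sat vr Con)

variable {n m : ℕ}

theorem big_iff (hm : 0 < m) {t : ℕ} (f : (Fin n → Bool) → Bool) (x : Fin m → Fin n → Bool)
    {S : List ℕ} (hS : Fine n S) :
    big (t * t) (sample f x) S = true ↔ 1 ≤ ((t : ℝ) * emp f x (fs S)) ^ 2 := by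
  have hm' : (0 : ℝ) < m := by exact_mod_cast hm
  unfold big
  rw [decide_eq_true_eq, sample_length, ← Nat.cast_le (α := ℝ)]
  push_cast
  rw [sqd_eq, agree_sum f x hS]
  have h1 : (∑ j, pm (f (x j)) * chi (fs S) (x j)) = m * emp f x (fs S) := by
    unfold emp
    field_simp
  rw [h1]
  have h2 : (t : ℝ) * t * (m * emp f x (fs S)) ^ 2 = (m * m : ℝ) * (t * emp f x (fs S)) ^ 2 := by
    ring
  rw [h2]
  constructor
  · intro h
    have h3 : (m * m : ℝ) * 1 ≤ (m * m : ℝ) * (t * emp f x (fs S)) ^ 2 := by linarith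
    exact le_of_mul_le_mul_left h3 (by positivity)
  · intro h
    nlinarith [mul_pos hm' hm']

/-- The detected coordinates are the relevant ones. -/
theorem mem_vars (hm : 0 < m) {k t W : ℕ} (ht : 1 ≤ t) (f : (Fin n → Bool) → Bool)
    (x : Fin m → Fin n → Bool) (hg : Good f x (k + 1) (1 / (2 * t)))
    (hW : (n + 1) ^ (k + 1) ≤ W)
    (hseen : ∀ i ∈ rel f, ∃ S : Finset (Fin n), i ∈ S ∧ S.card ≤ k + 1 ∧
      2 / (t : ℝ) ≤ |cf (sf f) S|) (i : Fin n) :
    (i : ℕ) ∈ vars W (k + 1) (t * t) n (sample f x) ↔ i ∈ rel f := by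
  have ht' : (0 : ℝ) < t := by exact_mod_cast ht
  have hrange : Fine n (List.range n) := fine_range
  have hW' : ((List.range n).length + 1) ^ (k + 1) ≤ W := by
    rw [List.length_range]
    exact hW
  unfold vars
  rw [List.mem_filter, List.any_eq_true]
  constructor
  · rintro ⟨_, U, hU, h⟩
    rw [Bool.and_eq_true, decide_eq_true_eq] at h
    by_contra hi
    obtain ⟨u1, u2⟩ := mem_subs (n := n) hrange hW' hU
    have hUf : Fine n U := hrange.sublist u1
    have h1 := (big_iff hm f x hUf).1 h.2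
    have h2 := hg (fs U) (by rw [card_fs hUf]; exact u2)
    rw [cf_irrel hi (mem_fs.2 h.1), sub_zero] at h2
    have h3 : |(t : ℝ) * emp f x (fs U)| ≤ 1 / 2 := by
      rw [abs_mul, abs_of_pos ht']
      calc (t : ℝ) * |emp f x (fs U)| ≤ t * (1 / (2 * t)) := mul_le_mul_of_nonneg_left h2 ht'.le
        _ = 1 / 2 := by field_simp
    rw [← sq_abs] at h1
    have h4 := abs_nonneg ((t : ℝ) * emp f x (fs U))
    nlinarith
  · intro hi
    refine ⟨List.mem_range.2 i.2, ?_⟩
    obtain ⟨S, s1, s2, s3⟩ := hseen i hi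
    obtain ⟨U, hU, rfl⟩ := exists_subs (n := n) hrange hW' S
      (fun j _ => mem_fs.2 (List.mem_range.2 j.2)) s2
    refine ⟨U, hU, ?_⟩
    rw [Bool.and_eq_true, decide_eq_true_eq]
    refine ⟨mem_fs.1 s1, ?_⟩
    obtain ⟨u1, u2⟩ := mem_subs (n := n) hrange hW' hU
    have hUf : Fine n U := hrange.sublist u1
    rw [big_iff hm f x hUf]
    have h2 := hg (fs U) s2
    have h3 : 1 / (t : ℝ) ≤ |emp f x (fs U)| := by
      have h4 : |cf (sf f) (fs U)| ≤ |emp f x (fs U)| + |emp f x (fs U) - cf (sf f) (fs U)| := by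
        have h5 := abs_sub_abs_le_abs_sub (cf (sf f) (fs U)) (emp f x (fs U))
        rw [abs_sub_comm] at h5
        linarith
      have h5 : (1 : ℝ) / (2 * t) = 1 / t / 2 := by
        field_simp
      have h6 : (2 : ℝ) / t = 2 * (1 / t) := by ring
      have h7 : (0 : ℝ) < 1 / t := by positivity
      linarith
    rw [← sq_abs, abs_mul, abs_of_pos ht']
    have h4 : 1 ≤ (t : ℝ) * |emp f x (fs U)| := by
      calc (1 : ℝ) = t * (1 / t) := by field_simp
        _ ≤ t * |emp f x (fs U)| := mul_le_mul_of_nonneg_left h3 ht'.le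
    nlinarith

/-- The hypothesis is correct when all the patterns occur. -/
theorem hv_eq (f : (Fin n → Bool) → Bool) (x : Fin m → Fin n → Bool) (V : List ℕ)
    (hV : ∀ i : Fin n, (i : ℕ) ∈ V ↔ i ∈ rel f) (hVn : ∀ a ∈ V, a < n)
    (hc : ∀ y : Fin n → Bool, ∃ j, ∀ i ∈ rel f, x j i = y i) (y : Fin n → Bool) :
    hv (V, ((sample f x).filter fun z => z.2).map fun z => z.1) (List.ofFn y) = f y := by
  have key : ∀ z : Fin n → Bool, (V.all fun i =>
      !(xor ((List.ofFn y).getD i false) ((List.ofFn z).getD i false))) = true ↔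
      ∀ i ∈ rel f, z i = y i := by
    intro z
    rw [List.all_eq_true]
    constructor
    · intro h i hi
      have h1 := h i ((hV i).2 hi)
      rw [getD_ofFn, getD_ofFn] at h1
      revert h1
      cases y i <;> cases z i <;> simp
    · intro h a ha
      have h1 := h ⟨a, hVn a ha⟩ ((hV _).1 ha)
      have h2 := getD_ofFn y ⟨a, hVn a ha⟩
      have h3 := getD_ofFn z ⟨a, hVn a ha⟩
      simp only at h2 h3
      rw [h2, h3, h1]
      simp
  rw [Bool.eq_iff_iff]
  unfold hv
  simp only [List.any_eq_true, List.mem_map, List.mem_filter]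
  constructor
  · rintro ⟨_, ⟨⟨z, b⟩, ⟨hz, hb⟩, rfl⟩, h⟩
    unfold sample at hz
    rw [List.mem_ofFn] at hz
    obtain ⟨j, hj⟩ := hz
    rw [Prod.ext_iff] at hj
    simp only at hj hb h
    rw [← hj.1] at h
    rw [← dep f (x j) y ((key (x j)).1 h), hj.2]
    exact hb
  · intro hy
    obtain ⟨j, hj⟩ := hc y
    have h1 : f (x j) = true := by rw [dep f (x j) y hj, hy]
    refine ⟨List.ofFn (x j), ⟨(List.ofFn (x j), f (x j)), ⟨?_, h1⟩, rfl⟩, (key (x j)).2 hj⟩
    unfold sample
    rw [List.mem_ofFn]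
    exact ⟨j, rfl⟩

/-- Number of samples in which some pattern on `J` is missing. -/
theorem not_cover (hm : 0 < m) (J : Finset (Fin n)) {r : ℕ} (hr : J.card ≤ r) (η : ℝ) (h0 : 0 ≤ η)
    (h1 : η < (1 / 2) ^ r) (P : (Fin m → Fin n → Bool) → Prop) [DecidablePred P]
    (hP : ∀ x, P x → ¬ ∀ y : Fin n → Bool, ∃ j, ∀ i ∈ J, x j i = y i) :
    ((univ.filter P).card : ℝ) ≤
      2 ^ r * (2 * ((2 : ℝ) ^ (n * m) * Real.exp (-(m * η ^ 2 / 4)))) := by
  classical
  have hm' : (0 : ℝ) < m := by exact_mod_cast hm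
  set μ : ℝ := (1 / 2) ^ J.card with hμ
  have hμr : (1 / 2 : ℝ) ^ r ≤ μ := pow_le_pow_of_le_one (by norm_num) (by norm_num) hr
  have hη1 : η ≤ 1 := h1.le.trans (pow_le_one₀ (by norm_num) (by norm_num))
  set v : Finset (Fin n) → (Fin n → Bool) → ℝ := fun A y =>
    if ∀ i ∈ J, y i = decide (i ∈ A) then 1 else 0 with hv
  set B : Finset (Fin n) → Finset (Fin m → Fin n → Bool) := fun A => univ.filter fun x =>
    m * η < |∑ j, v A (x j) - m * μ| with hB
  have h2 : univ.filter P ⊆ J.powerset.biUnion B := by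
    intro x hx
    simp only [Finset.mem_filter, Finset.mem_univ, true_and] at hx
    have h3 := hP x hx
    push Not at h3
    obtain ⟨y, hy⟩ := h3
    rw [Finset.mem_biUnion]
    refine ⟨J.filter fun i => y i = true, Finset.mem_powerset.2 (Finset.filter_subset _ _), ?_⟩
    simp only [hB, Finset.mem_filter, Finset.mem_univ, true_and]
    have h4 : ∑ j, v (J.filter fun i => y i = true) (x j) = 0 := by
      refine Finset.sum_eq_zero fun j _ => ?_
      simp only [hv]
      rw [if_neg]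
      intro h
      obtain ⟨i, hi, hne⟩ := hy j
      refine hne ?_
      rw [h i hi]
      simp [Finset.mem_filter, hi]
    rw [h4, zero_sub, abs_neg, abs_of_nonneg (by positivity)]
    exact mul_lt_mul_of_pos_left (h1.trans_le hμr) hm'
  have h4 : ∀ A : Finset (Fin n), ((B A).card : ℝ) ≤
      2 * ((2 : ℝ) ^ (n * m) * Real.exp (-(m * η ^ 2 / 4))) := by
    intro A
    have h5 := two_tails (X := Fin n → Bool) (v A)
      (fun y => by simp only [hv]; split_ifs <;> simp) μ (by
        have h6 := card_agree J (fun i => decide (i ∈ A))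
        simp only [hv]
        rw [Finset.sum_ite, Finset.sum_const_zero, add_zero, Finset.sum_const, nsmul_eq_mul,
          mul_one, Fintype.card_fun, Fintype.card_bool, Fintype.card_fin]
        push_cast
        rw [← h6, hμ, one_div, inv_pow]
        rw [mul_comm, mul_assoc, mul_inv_cancel₀ (by positivity), mul_one]) η h0 hη1 m
    have h6 : ((Fintype.card (Fin n → Bool) : ℕ) : ℝ) ^ m = 2 ^ (n * m) := by
      simp [pow_mul]
    rw [h6] at h5
    exact h5
  calc ((univ.filter P).card : ℝ) ≤ ((J.powerset.biUnion B).card : ℝ) := by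
        exact_mod_cast Finset.card_le_card h2
    _ ≤ ∑ A ∈ J.powerset, ((B A).card : ℝ) := by
        exact_mod_cast Finset.card_biUnion_le
    _ ≤ ∑ _A ∈ J.powerset, 2 * ((2 : ℝ) ^ (n * m) * Real.exp (-(m * η ^ 2 / 4))) :=
        Finset.sum_le_sum fun A _ => h4 A
    _ = (2 : ℝ) ^ J.card * (2 * ((2 : ℝ) ^ (n * m) * Real.exp (-(m * η ^ 2 / 4)))) := by
        rw [Finset.sum_const, nsmul_eq_mul, Finset.card_powerset]
        push_cast
        ring
    _ ≤ _ := mul_le_mul_of_nonneg_right (pow_le_pow_right₀ (by norm_num) hr) (by positivity)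

/-- The exponent. -/
def cj (k : ℕ) : ℕ := (k + 1) * (8 * k + 16) + 2

theorem cj_ge (k : ℕ) : k + 11 ≤ cj k := by
  unfold cj
  nlinarith

/-- The main count. -/
theorem ju_main {k r d t : ℕ} (hd : 1 ≤ d)
    (ht : ((n + 2) * 2 ^ r * d) ^ cj k ≤ t) (hm : t ^ cj k ≤ m)
    (f : (Fin n → Bool) → Bool) (hr : (rel f).card ≤ r)
    (hseen : ∀ i ∈ rel f, ∃ S : Finset (Fin n), i ∈ S ∧ S.card ≤ k + 1 ∧
      (1 / 2 : ℝ) ^ ((k + 1) * (r + 8 * k + 16)) < |cf (sf f) S|) :
    (univ.filter fun x : Fin m → Fin n → Bool => ∃ y : Fin n → Bool,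
      hv (lrn k t (sample f x)) (List.ofFn y) ≠ f y).card * d ≤ 2 ^ (n * m) := by
  classical
  obtain ⟨C, hC⟩ : ∃ C, C = cj k := ⟨_, rfl⟩
  have hC11 : k + 11 ≤ C := hC ▸ cj_ge k
  rw [← hC] at ht hm
  have hbase : n + 2 ≤ (n + 2) * 2 ^ r * d := by
    calc n + 2 = (n + 2) * 1 * 1 := by ring
      _ ≤ (n + 2) * 2 ^ r * d :=
        Nat.mul_le_mul (Nat.mul_le_mul_left _ (Nat.one_le_two_pow)) hd
  have hbase2 : d ≤ (n + 2) * 2 ^ r * d := by
    calc d = 1 * 1 * d := by ring
      _ ≤ (n + 2) * 2 ^ r * d := Nat.mul_le_mul_right _ (Nat.mul_le_mul (by omega)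
        (Nat.one_le_two_pow))
  have hbase3 : 2 ^ (r + 1) ≤ (n + 2) * 2 ^ r * d := by
    calc 2 ^ (r + 1) = 2 * 2 ^ r * 1 := by ring
      _ ≤ (n + 2) * 2 ^ r * d := Nat.mul_le_mul (Nat.mul_le_mul_right _ (by omega)) hd
  have hpow : (n + 2) * 2 ^ r * d ≤ t := (Nat.le_self_pow (by omega) _).trans ht
  have h2t : 2 ≤ t := le_trans (by omega) (hbase.trans hpow)
  have ht1 : 1 ≤ t := by omega
  have hmt : t ≤ m := (Nat.le_self_pow (by omega) _).trans hm
  have hm0 : 0 < m := by omega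
  have ht' : (0 : ℝ) < t := by exact_mod_cast ht1
  have h2t' : (2 : ℝ) ≤ t := by exact_mod_cast h2t
  have hd' : (0 : ℝ) < d := by exact_mod_cast hd
  -- the threshold
  have hthr : 2 / (t : ℝ) ≤ (1 / 2 : ℝ) ^ ((k + 1) * (r + 8 * k + 16)) := by
    have h1 : 2 ^ ((k + 1) * (r + 8 * k + 16) + 1) ≤ t := by
      refine le_trans ?_ ((Nat.pow_le_pow_left hbase3 C).trans ht)
      rw [← pow_mul]
      refine Nat.pow_le_pow_right (by norm_num) ?_
      rw [hC]
      unfold cj
      nlinarith [Nat.zero_le (r * k * k), Nat.zero_le (r * k), Nat.zero_le r, Nat.zero_le k]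
    have h2 : (2 : ℝ) ^ ((k + 1) * (r + 8 * k + 16)) * 2 ≤ t := by
      rw [← pow_succ]
      exact_mod_cast h1
    rw [div_le_iff₀ ht', one_div, inv_pow]
    have h3 : (0 : ℝ) < 2 ^ ((k + 1) * (r + 8 * k + 16)) := by positivity
    rw [inv_mul_eq_div, le_div_iff₀ h3]
    linarith
  set η : ℝ := 1 / (2 * t) with hη
  have hη0 : 0 < η := by positivity
  have hη1 : η ≤ 1 := by
    rw [hη, div_le_one (by positivity)]
    linarith
  have hηr : η < (1 / 2) ^ r := by
    have h1 : 2 ^ r ≤ t := by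
      have : 2 ^ r ≤ 2 ^ (r + 1) := Nat.pow_le_pow_right (by norm_num) (by omega)
      omega
    have h2 : (2 : ℝ) ^ r ≤ t := by exact_mod_cast h1
    rw [hη, one_div, one_div, inv_pow]
    rw [inv_lt_inv₀ (by positivity) (by positivity)]
    linarith
  have hWn : (n + 1) ^ (k + 1) ≤ (2 * t) ^ (k + 1) := Nat.pow_le_pow_left (by omega) _
  have hok : ∀ x : Fin m → Fin n → Bool, Good f x (k + 1) η →
      (∀ y : Fin n → Bool, ∃ j, ∀ i ∈ rel f, x j i = y i) →
      ∀ y : Fin n → Bool, hv (lrn k t (sample f x)) (List.ofFn y) = f y := by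
    intro x hx hc y
    have hhead : ((sample f x).headD ([], false)).1.length = n := by
      obtain ⟨m', rfl⟩ : ∃ m', m = m' + 1 := ⟨m - 1, by omega⟩
      simp [sample, List.ofFn_succ]
    unfold lrn
    rw [hhead]
    refine hv_eq f x _ (mem_vars hm0 ht1 f x hx hWn fun i hi => ?_) (fun a ha => ?_) hc y
    · obtain ⟨S, s1, s2, s3⟩ := hseen i hi
      exact ⟨S, s1, s2, hthr.trans s3.le⟩
    · unfold vars at ha
      exact List.mem_range.1 (List.mem_filter.1 ha).1
  have e1 := not_good hm0 f (k + 1) η hη0.le hη1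
    (fun x : Fin m → Fin n → Bool => ¬ Good f x (k + 1) η) (fun x hx => hx)
  have e2 := not_cover hm0 (rel f) hr η hη0.le hηr
    (fun x : Fin m → Fin n → Bool => ¬ ∀ y : Fin n → Bool, ∃ j, ∀ i ∈ rel f, x j i = y i)
    (fun x hx => hx)
  have e3 : ((univ.filter fun x : Fin m → Fin n → Bool => ∃ y : Fin n → Bool,
      hv (lrn k t (sample f x)) (List.ofFn y) ≠ f y).card : ℝ) ≤
      ((univ.filter fun x : Fin m → Fin n → Bool => ¬ Good f x (k + 1) η).card : ℝ) +
      ((univ.filter fun x : Fin m → Fin n → Bool =>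
        ¬ ∀ y : Fin n → Bool, ∃ j, ∀ i ∈ rel f, x j i = y i).card : ℝ) := by
    have h1 : (univ.filter fun x : Fin m → Fin n → Bool => ∃ y : Fin n → Bool,
      hv (lrn k t (sample f x)) (List.ofFn y) ≠ f y) ⊆
      (univ.filter fun x : Fin m → Fin n → Bool => ¬ Good f x (k + 1) η) ∪
      (univ.filter fun x : Fin m → Fin n → Bool =>
        ¬ ∀ y : Fin n → Bool, ∃ j, ∀ i ∈ rel f, x j i = y i) := by
      intro x hx
      rw [Finset.mem_filter] at hx
      rw [Finset.mem_union, Finset.mem_filter, Finset.mem_filter]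
      by_contra hcon
      simp only [Finset.mem_univ, true_and, not_or, not_not] at hcon
      obtain ⟨_, y, hy⟩ := hx
      exact hy (hok x hcon.1 hcon.2 y)
    have h2 := (Finset.card_le_card h1).trans (Finset.card_union_le _ _)
    exact_mod_cast h2
  -- the sample is large
  have hexp : ((n + 1 : ℝ) ^ (k + 1) + 2 ^ r) * 2 * d ≤ Real.exp (m * η ^ 2 / 4) := by
    have hj : ((t * (k + 4) : ℕ) : ℝ) ≤ m * η ^ 2 / 4 := by
      have h3 : m * η ^ 2 / 4 = m / (16 * (t : ℝ) ^ 2) := by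
        rw [hη]
        field_simp
        norm_num
      rw [h3, le_div_iff₀ (by positivity)]
      have h4 : t * (k + 4) * (16 * t ^ 2) ≤ m := by
        have a1 : 16 * (k + 4) ≤ t ^ (k + 8) := by
          have b1 : k + 4 < 2 ^ (k + 4) := Nat.lt_two_pow_self
          calc 16 * (k + 4) ≤ 16 * 2 ^ (k + 4) := Nat.mul_le_mul_left _ b1.le
            _ = 2 ^ (k + 8) := by ring
            _ ≤ t ^ (k + 8) := Nat.pow_le_pow_left h2t _
        calc t * (k + 4) * (16 * t ^ 2) = 16 * (k + 4) * t ^ 3 := by ring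
          _ ≤ t ^ (k + 8) * t ^ 3 := Nat.mul_le_mul_right _ a1
          _ = t ^ (k + 11) := by rw [← pow_add]
          _ ≤ t ^ C := Nat.pow_le_pow_right ht1 hC11
          _ ≤ m := hm
      exact_mod_cast h4
    have h3 : (2 : ℝ) ^ (t * (k + 4)) ≤ Real.exp (m * η ^ 2 / 4) := by
      calc (2 : ℝ) ^ (t * (k + 4)) ≤ (Real.exp 1) ^ (t * (k + 4)) := by
            refine pow_le_pow_left₀ (by norm_num) ?_ _
            have := Real.add_one_le_exp (1 : ℝ)
            linarith
        _ = Real.exp ((t * (k + 4) : ℕ) : ℝ) := by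
            rw [← Real.exp_nat_mul, mul_one]
        _ ≤ _ := Real.exp_le_exp.2 hj
    refine le_trans ?_ h3
    have h4 : ((n + 1) ^ (k + 1) + 2 ^ r) * 2 * d ≤ 2 ^ (t * (k + 4)) := by
      have c1 : n + 1 ≤ t := by omega
      have c2 : 2 ^ r ≤ t := by
        have : 2 ^ r ≤ 2 ^ (r + 1) := Nat.pow_le_pow_right (by norm_num) (by omega)
        omega
      have c3 : d ≤ t := by omega
      have c4 : t ≤ 2 ^ t := Nat.lt_two_pow_self.le
      have c5 : t ≤ t ^ (k + 1) := Nat.le_self_pow (by omega) _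
      calc ((n + 1) ^ (k + 1) + 2 ^ r) * 2 * d ≤ (t ^ (k + 1) + t ^ (k + 1)) * 2 * t := by
            refine Nat.mul_le_mul (Nat.mul_le_mul_right _ (Nat.add_le_add
              (Nat.pow_le_pow_left c1 _) (c2.trans c5))) c3
        _ = 2 ^ 2 * t ^ (k + 2) := by ring
        _ ≤ t ^ 2 * t ^ (k + 2) := Nat.mul_le_mul_right _ (Nat.pow_le_pow_left h2t 2)
        _ = t ^ (k + 4) := by rw [← pow_add]; congr 1; omega
        _ ≤ (2 ^ t) ^ (k + 4) := Nat.pow_le_pow_left c4 _
        _ = 2 ^ (t * (k + 4)) := by rw [← pow_mul]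
    exact_mod_cast h4
  have hfin : ((univ.filter fun x : Fin m → Fin n → Bool => ∃ y : Fin n → Bool,
      hv (lrn k t (sample f x)) (List.ofFn y) ≠ f y).card : ℝ) * d ≤ (2 : ℝ) ^ (n * m) := by
    calc _ ≤ (((n + 1 : ℝ) ^ (k + 1) * (2 * ((2 : ℝ) ^ (n * m) *
          Real.exp (-(m * η ^ 2 / 4))))) + (2 : ℝ) ^ r * (2 * ((2 : ℝ) ^ (n * m) *
          Real.exp (-(m * η ^ 2 / 4))))) * d :=
          mul_le_mul_of_nonneg_right (e3.trans (add_le_add e1 e2)) hd'.le
      _ = (((n + 1 : ℝ) ^ (k + 1) + 2 ^ r) * 2 * d) * Real.exp (-(m * η ^ 2 / 4)) *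
          2 ^ (n * m) := by ring
      _ ≤ Real.exp (m * η ^ 2 / 4) * Real.exp (-(m * η ^ 2 / 4)) * 2 ^ (n * m) := by
          refine mul_le_mul_of_nonneg_right (mul_le_mul_of_nonneg_right hexp
            (Real.exp_pos _).le) (by positivity)
      _ = 2 ^ (n * m) := by
          rw [← Real.exp_add]
          simp
  exact_mod_cast hfin

/-- The theorem in terms of probabilities. -/
theorem ju_prob {k r d t m : ℕ} (hd : 1 ≤ d)
    (ht : ((n + 2) * 2 ^ r * d) ^ cj k ≤ t) (hm : t ^ cj k ≤ m)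
    (F : List (List (ℕ × Bool))) (σ : ℕ → Bool)
    (hσ : ∀ i, (F.filter fun T => decide ((i, !σ i) ∈ T)).length ≤ k)
    (J : Finset (Fin n)) (hJc : J.card ≤ r)
    (hJ : ∀ x y : Fin n → Bool, (∀ i ∈ J, x i = y i) →
      AM.val F (List.ofFn x) = AM.val F (List.ofFn y)) :
    AM.prob (fun x : Fin m → Fin n → Bool => ∃ y : Fin n → Bool,
      evlBits (lrnBits k (List.replicate t (),
        AM.sample (fun y => AM.val F (List.ofFn y)) x), List.ofFn y) ≠ AM.val F (List.ofFn y)) ≤
      1 / d := by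
  classical
  set f : (Fin n → Bool) → Bool := fun y => AM.val F (List.ofFn y) with hf
  obtain ⟨F', c1, c2, c3⟩ := MO.convert_dnf (n := n) k F σ hσ
  have hr : (rel f).card ≤ r := (Finset.card_le_card (rel_sub (f := f) hJ)).trans hJc
  have h1 := ju_main (n := n) (m := m) hd ht hm f hr fun i hi =>
    seen F' c1 f c2 i (σ i) (c3 i) hi hr
  rw [prob_eq]
  have h3 : (univ.filter fun x : Fin m → Fin n → Bool => ∃ y : Fin n → Bool,
      evlBits (lrnBits k (List.replicate t (), AM.sample f x), List.ofFn y) ≠ f y) =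
      univ.filter fun x : Fin m → Fin n → Bool => ∃ y : Fin n → Bool,
      hv (lrn k t (AM.sample f x)) (List.ofFn y) ≠ f y := by
    ext x
    simp only [Finset.mem_filter, Finset.mem_univ, true_and, lrnBits, evlBits_bits,
      List.length_replicate]
  rw [h3, Fintype.card_fun, Fintype.card_fun, Fintype.card_bool, Fintype.card_fin,
    Fintype.card_fin, div_le_div_iff₀ (by positivity) (by exact_mod_cast hd), one_mul]
  rw [← pow_mul]
  exact_mod_cast h1

end Pool.Agent.Helper92.JU
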